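import Pool.Agent.H648.Q.Defs
import Pool.Graph.R_seed8.Helper112.Arith

/-!
Project Q648 (helper648), task CNT (helper870): from triples to integers.
-/

set_option autoImplicit false

namespace Pool.Agent.H870.Q648

open Finset
open Pool.Agent.W78.GS (Pm)
open Pool.Agent.W78.GT (Tr NT tri Qp mem_tri)
open Pool.Agent.H648.Q

section

variable (a b c κ : ℤ)

/-- the inverse map -/
noncomputable def ph (p : Bool × ℕ × ℤ) (x : Σ _ : ℤ, ℕ) : Tr :=
  match p with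
  | (true, l, s) => (l * x.2, a * κ * x.1 + s * x.2,
      (Qp (b * κ) (a * c * κ ^ 2) (a * κ * x.1 + s * x.2) / ((l * x.2 : ℕ) : ℤ)).toNat)
  | (false, l, s) => ((Qp (b * κ) (a * c * κ ^ 2) (s * x.2 - b * κ - a * κ * x.1) /
      ((x.2 / l : ℕ) : ℤ)).toNat, s * x.2 - b * κ - a * κ * x.1, x.2 / l)

end

theorem Fp_ne {a b c : ℤ} (hD : b ^ 2 < 4 * (a * c)) (n : ℤ) : Fp a b c n ≠ 0 := by
  intro h0
  have h1 : 4 * a * Fp a b c n = (2 * a * n + b) ^ 2 + (4 * (a * c) - b ^ 2) := by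
    unfold Fp; ring
  rw [h0, mul_zero] at h1
  nlinarith [sq_nonneg (2 * a * n + b)]

theorem a_ne {a b c : ℤ} (hD : b ^ 2 < 4 * (a * c)) : a ≠ 0 := by
  rintro rfl
  rw [zero_mul, mul_zero] at hD
  nlinarith [sq_nonneg b]

/-- the size of `n` -/
theorem n_le {a b c κ : ℤ} (hD : b ^ 2 < 4 * (a * c)) {X : ℝ} {D d' : ℕ} {n : ℤ} (hX : 1 ≤ X)
    (h1 : (D : ℝ) ≤ X) (h2 : (d' : ℝ) ≤ X)
    (h3 : (D : ℤ) * d' = Qp (b * κ) (a * c * κ ^ 2) n) :
    |(n : ℝ)| ≤ (1 + |((b * κ : ℤ) : ℝ)|) * X := by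
  have h4 : (2 * n + b * κ) ^ 2 ≤ 4 * ((D : ℤ) * d') := by
    rw [h3]
    unfold Qp
    nlinarith [mul_nonneg (sub_nonneg.mpr hD.le) (sq_nonneg κ)]
  have h5 : (2 * (n : ℝ) + ((b * κ : ℤ) : ℝ)) ^ 2 ≤ 4 * ((D : ℝ) * d') := by
    exact_mod_cast h4
  have hD0 : (0 : ℝ) ≤ D := Nat.cast_nonneg _
  have hd0 : (0 : ℝ) ≤ d' := Nat.cast_nonneg _
  have h6 : (2 * (n : ℝ) + ((b * κ : ℤ) : ℝ)) ^ 2 ≤ (2 * X) ^ 2 := by nlinarith
  have h7 : |2 * (n : ℝ) + ((b * κ : ℤ) : ℝ)| ≤ 2 * X := abs_le_of_sq_le_sq h6 (by linarith)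
  have h8 := abs_sub_abs_le_abs_sub (2 * (n : ℝ)) (-((b * κ : ℤ) : ℝ))
  rw [sub_neg_eq_add, abs_neg, abs_mul, abs_of_pos (two_pos : (0 : ℝ) < 2)] at h8
  have h9 := abs_nonneg ((b * κ : ℤ) : ℝ)
  nlinarith

theorem cnt_of {g : ℕ → ℤ} {a b c : ℤ} (hg : Pm g) (hD : b ^ 2 < 4 * (a * c))
    (h : S_STR g a b c) : S_CNT g a b c := by
  classical
  intro κ Q hκ haκ hQ ε hε
  have ha : a ≠ 0 := a_ne hD
  have haκ0 : a * κ ≠ 0 := mul_ne_zero ha hκ
  obtain ⟨C0, hC0, hdiv⟩ := Pool.Agent.Helper112.divisor_bound (ε / 2) (by positivity)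
  obtain ⟨q1, hq1⟩ : ∃ q1 : ℕ, ∀ l ∈ Q, l ≤ q1 := ⟨Q.sup id, fun l hl => Finset.le_sup (f := id) hl⟩
  set C3 : ℝ := ((|a| * κ ^ 2 * (|a| + |b| + |c|) : ℤ) : ℝ) with hC3
  have hC3z : 0 ≤ |a| * κ ^ 2 * (|a| + |b| + |c|) := by positivity
  have hC30 : 0 ≤ C3 := by
    rw [hC3]
    exact_mod_cast hC3z
  set C2 : ℝ := q1 + 2 + 2 * |((b * κ : ℤ) : ℝ)| with hC2
  have hbk := abs_nonneg ((b * κ : ℤ) : ℝ)
  have hC21 : 1 ≤ C2 := by
    have : (0 : ℝ) ≤ q1 := Nat.cast_nonneg _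
    rw [hC2]
    linarith
  set C4 : ℝ := 4 * Q.card * (C0 * C3 ^ (ε / 2)) with hC4
  have hC40 : 0 ≤ C4 := by positivity
  refine ⟨C2 + C4, by linarith, fun N hN s hs => ?_⟩
  have hN0 : (1 : ℝ) ≤ N := by exact_mod_cast hN
  set X : ℝ := N / (C2 + C4) with hX
  have hXN : C2 * X ≤ N := by
    rw [hX, mul_div_assoc', div_le_iff₀ (by linarith)]
    nlinarith
  set G := (Icc (-(N : ℤ)) N).filter (fun n => g (Fp a b c n).natAbs = s) with hG
  let V : ℤ → Finset ℕ := fun n => (a * κ ^ 2 * Fp a b c n).natAbs.divisors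
  let S0 : Finset (Bool × ℕ × ℤ) := Finset.univ ×ˢ Q ×ˢ ({1, -1} : Finset ℤ)
  have hsub : (TS g b (a * c) κ X).filter (fun e => Gd (a * κ) Q e) ⊆
      S0.biUnion (fun p => (G.sigma V).image (ph a b c κ p)) := by
    rintro ⟨D, n, d'⟩ he
    rw [mem_filter] at he
    obtain ⟨he, hgd⟩ := he
    unfold TS at he
    rw [mem_filter] at he
    obtain ⟨he, hgcd, hsgn⟩ := he
    obtain ⟨t1, t2, t3, t4, t5, -⟩ := mem_tri.mp he
    obtain ⟨l, hl, d, hDd, hmod⟩ := hgd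
    simp only at t1 t2 t3 t4 t5 hgcd hDd hmod
    have hX1 : 1 ≤ X := by
      have : (1 : ℝ) ≤ D := by exact_mod_cast t1
      linarith
    have hl1 : 1 ≤ l := (hQ l hl).one_lt.le
    have hd1 : 1 ≤ d := by
      rcases Nat.eq_zero_or_pos d with hd | hd
      · rw [hd, mul_zero] at hDd
        omega
      · exact hd
    -- the sign
    obtain ⟨s0, hs0, hdvd⟩ : ∃ s0 : ℤ, (s0 = 1 ∨ s0 = -1) ∧ a * κ ∣ n - s0 * d := by
      rcases hmod with hm | hm
      · exact ⟨1, Or.inl rfl, by rw [one_mul]; exact hm⟩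
      · refine ⟨-1, Or.inr rfl, ?_⟩
        have : n - -1 * (d : ℤ) = n + d := by ring
        rw [this]
        exact hm
    have hld' : 1 ≤ l * d' := Nat.mul_pos hl1 t3
    have heq : (d : ℤ) * ((l * d' : ℕ) : ℤ) = n ^ 2 + b * κ * n + a * c * κ ^ 2 := by
      have : (d : ℤ) * ((l * d' : ℕ) : ℤ) = (D : ℤ) * d' := by
        rw [hDd]
        push_cast
        ring
      rw [this, t5]
      rfl
    obtain ⟨n₁, n₂, e1, e2, e3, e4, e5⟩ := h κ s0 n d (l * d') hκ haκ hs0 hd1 hld' heq hgcd hdvd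
    have hNT : g (d * (l * d')) = -1 := by
      rw [← hsgn]
      congr 1
      show d * (l * d') = D * d'
      rw [hDd]
      ring
    rw [hNT] at e3
    -- sizes
    have hn := n_le (κ := κ) hD hX1 t2 t4 t5
    have habs1 : ∀ z : ℤ, |(z : ℝ)| ≤ |((a * κ * z : ℤ) : ℝ)| := by
      intro z
      rw [Int.cast_mul, abs_mul]
      have : (1 : ℝ) ≤ |((a * κ : ℤ) : ℝ)| := by
        have h1 : 1 ≤ |a * κ| := Int.one_le_abs haκ0
        exact_mod_cast h1
      nlinarith [abs_nonneg (z : ℝ)]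
    have hs0a : |(s0 : ℝ)| = 1 := by
      rcases hs0 with rfl | rfl <;> norm_num
    have hdX : (d : ℝ) ≤ X := by
      have : (d : ℝ) ≤ D := by
        rw [hDd]
        exact_mod_cast Nat.le_mul_of_pos_left d hl1
      linarith
    have hn1 : |(n₁ : ℝ)| ≤ N := by
      refine (habs1 n₁).trans ?_
      rw [e1]
      push_cast
      have h1 : |(n : ℝ) - s0 * d| ≤ |(n : ℝ)| + |(s0 : ℝ) * d| := abs_sub _ _
      rw [abs_mul, hs0a, one_mul, abs_of_nonneg (Nat.cast_nonneg d : (0 : ℝ) ≤ d)] at h1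
      have hq0 : (0 : ℝ) ≤ q1 := Nat.cast_nonneg _
      rw [hC2] at hXN
      push_cast at hn hXN
      nlinarith [abs_nonneg ((b : ℝ) * κ)]
    have hn2 : |(n₂ : ℝ)| ≤ N := by
      refine (habs1 n₂).trans ?_
      rw [e2]
      push_cast
      have h1 : |(s0 : ℝ) * (l * d') - n - b * κ| ≤ |(s0 : ℝ) * (l * d')| + |(n : ℝ)| + |(b : ℝ) * κ| := by
        refine (abs_sub _ _).trans ?_
        gcongr
        exact abs_sub _ _
      rw [abs_mul, hs0a, one_mul, abs_of_nonneg (by positivity : (0 : ℝ) ≤ (l : ℝ) * d')] at h1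
      have hlq : (l : ℝ) ≤ q1 := by exact_mod_cast hq1 l hl
      have hl0 : (0 : ℝ) ≤ l := Nat.cast_nonneg _
      have hd0 : (0 : ℝ) ≤ d' := Nat.cast_nonneg _
      have h2 : (l : ℝ) * d' ≤ q1 * X := mul_le_mul hlq t4 hd0 (by linarith)
      rw [hC2] at hXN
      push_cast at hn hXN
      nlinarith [abs_nonneg ((b : ℝ) * κ)]
    have hmemG : ∀ z : ℤ, |(z : ℝ)| ≤ N → g (Fp a b c z).natAbs = s → z ∈ G := by
      intro z hz hgz
      rw [hG, mem_filter, Finset.mem_Icc]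
      refine ⟨?_, hgz⟩
      rw [← abs_le]
      exact_mod_cast hz
    have hmemV : ∀ (z : ℤ) (v : ℕ), (v : ℤ) ∣ a * κ ^ 2 * Fp a b c z → v ∈ V z := by
      intro z v hv
      show v ∈ (a * κ ^ 2 * Fp a b c z).natAbs.divisors
      rw [Nat.mem_divisors]
      refine ⟨Int.natCast_dvd.mp hv, ?_⟩
      rw [Int.natAbs_ne_zero]
      exact mul_ne_zero (mul_ne_zero ha (pow_ne_zero 2 hκ)) (Fp_ne hD z)
    have hD0 : (D : ℤ) ≠ 0 := by exact_mod_cast (by omega : D ≠ 0)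
    have hd0 : (d' : ℤ) ≠ 0 := by exact_mod_cast (by omega : d' ≠ 0)
    rw [mem_biUnion]
    have hcase : g (Fp a b c n₁).natAbs = s ∨ g (Fp a b c n₂).natAbs = s := by
      rcases hg.val (Fp a b c n₁).natAbs with h1 | h1 <;>
        rcases hg.val (Fp a b c n₂).natAbs with h2 | h2 <;> rcases hs with rfl | rfl <;>
        rw [h1, h2] at e3 ⊢ <;> simp at e3 ⊢
    rcases hcase with hc | hc
    · refine ⟨(true, l, s0), ?_, ?_⟩
      · simp only [S0, mem_product, mem_univ, true_and, mem_insert, mem_singleton]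
        exact ⟨hl, hs0⟩
      · rw [mem_image]
        refine ⟨⟨n₁, d⟩, mem_sigma.mpr ⟨hmemG n₁ hn1 hc, hmemV n₁ d e4⟩, ?_⟩
        have h1 : a * κ * n₁ + s0 * d = n := by rw [e1]; ring
        show ((l * d, a * κ * n₁ + s0 * d,
          (Qp (b * κ) (a * c * κ ^ 2) (a * κ * n₁ + s0 * d) / ((l * d : ℕ) : ℤ)).toNat) : Tr) = _
        rw [h1, ← hDd, ← t5, Int.mul_ediv_cancel_left _ hD0, Int.toNat_natCast]
    · refine ⟨(false, l, s0), ?_, ?_⟩
      · simp only [S0, mem_product, mem_univ, true_and, mem_insert, mem_singleton]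
        exact ⟨hl, hs0⟩
      · rw [mem_image]
        refine ⟨⟨n₂, l * d'⟩, mem_sigma.mpr ⟨hmemG n₂ hn2 hc, hmemV n₂ _ e5⟩, ?_⟩
        have h1 : s0 * ((l * d' : ℕ) : ℤ) - b * κ - a * κ * n₂ = n := by rw [e2]; ring
        show (((Qp (b * κ) (a * c * κ ^ 2) (s0 * ((l * d' : ℕ) : ℤ) - b * κ - a * κ * n₂) /
          ((l * d' / l : ℕ) : ℤ)).toNat, s0 * ((l * d' : ℕ) : ℤ) - b * κ - a * κ * n₂,
          l * d' / l) : Tr) = _
        rw [h1, Nat.mul_div_cancel_left _ (by omega : 0 < l), ← t5, Int.mul_ediv_cancel _ hd0,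
          Int.toNat_natCast]
  -- the count
  have hcard1 : (((TS g b (a * c) κ X).filter (fun e => Gd (a * κ) Q e)).card : ℝ) ≤
      4 * Q.card * ((G.sigma V).card : ℝ) := by
    have h1 : ((TS g b (a * c) κ X).filter (fun e => Gd (a * κ) Q e)).card ≤
        S0.card * (G.sigma V).card := by
      refine (card_le_card hsub).trans (card_biUnion_le_card_mul _ _ _ fun p _ => card_image_le)
    have h2 : S0.card ≤ 4 * Q.card := by
      have h3 : S0.card = 2 * (Q.card * ({1, -1} : Finset ℤ).card) := by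
        simp only [S0, card_product, card_univ, Fintype.card_bool]
      have h4 : ({1, -1} : Finset ℤ).card ≤ 2 := card_le_two
      rw [h3]
      nlinarith
    have h5 := h1.trans (Nat.mul_le_mul_right _ h2)
    exact_mod_cast h5
  have hcard2 : ((G.sigma V).card : ℝ) ≤ G.card * (C0 * (C3 ^ (ε / 2) * (N : ℝ) ^ ε)) := by
    rw [card_sigma]
    push_cast
    have h1 : ∀ n ∈ G, ((V n).card : ℝ) ≤ C0 * (C3 ^ (ε / 2) * (N : ℝ) ^ ε) := by
      intro n hn
      rw [hG, mem_filter, Finset.mem_Icc, ← abs_le] at hn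
      have hne : a * κ ^ 2 * Fp a b c n ≠ 0 :=
        mul_ne_zero (mul_ne_zero ha (pow_ne_zero 2 hκ)) (Fp_ne hD n)
      have h2 : 1 ≤ (a * κ ^ 2 * Fp a b c n).natAbs := Nat.one_le_iff_ne_zero.mpr
        (Int.natAbs_ne_zero.mpr hne)
      have h3 := hdiv _ h2
      have hNz : (1 : ℤ) ≤ N := by exact_mod_cast hN
      have h4 : |a * κ ^ 2 * Fp a b c n| ≤ |a| * κ ^ 2 * (|a| + |b| + |c|) * N ^ 2 := by
        have h5 : |Fp a b c n| ≤ (|a| + |b| + |c|) * N ^ 2 := by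
          unfold Fp
          have h6 : |a * n ^ 2 + b * n + c| ≤ |a| * |n| ^ 2 + |b| * |n| + |c| := by
            refine (abs_add_le _ _).trans ?_
            gcongr
            refine (abs_add_le _ _).trans ?_
            rw [abs_mul, abs_mul, abs_pow]
          have h7 : |n| ^ 2 ≤ (N : ℤ) ^ 2 := by
            have := abs_nonneg n
            nlinarith [hn.1]
          have h8 : |n| ≤ (N : ℤ) ^ 2 := by nlinarith [hn.1]
          have h9 : (1 : ℤ) ≤ (N : ℤ) ^ 2 := by nlinarith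
          nlinarith [mul_le_mul_of_nonneg_left h7 (abs_nonneg a),
            mul_le_mul_of_nonneg_left h8 (abs_nonneg b),
            mul_le_mul_of_nonneg_left h9 (abs_nonneg c)]
        rw [abs_mul, abs_mul, abs_of_nonneg (sq_nonneg κ), mul_assoc (|a| * κ ^ 2)]
        exact mul_le_mul_of_nonneg_left h5 (by positivity)
      have h5 : ((a * κ ^ 2 * Fp a b c n).natAbs : ℝ) ≤ C3 * (N : ℝ) ^ 2 := by
        rw [hC3]
        have h6 : (((a * κ ^ 2 * Fp a b c n).natAbs : ℕ) : ℤ) ≤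
            |a| * κ ^ 2 * (|a| + |b| + |c|) * N ^ 2 := by
          rw [Int.natCast_natAbs]
          exact h4
        have h7 : ((((a * κ ^ 2 * Fp a b c n).natAbs : ℕ) : ℤ) : ℝ) ≤
            ((|a| * κ ^ 2 * (|a| + |b| + |c|) * N ^ 2 : ℤ) : ℝ) := Int.cast_le.mpr h6
        rw [Int.cast_natCast, Int.cast_mul, Int.cast_pow, Int.cast_natCast] at h7
        exact h7
      refine h3.trans (mul_le_mul_of_nonneg_left ?_ hC0.le)
      refine (Real.rpow_le_rpow (Nat.cast_nonneg _) h5 (by positivity)).trans (le_of_eq ?_)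
      rw [Real.mul_rpow hC30 (by positivity), ← Real.rpow_natCast, ← Real.rpow_mul (by positivity)]
      congr 2
      push_cast
      ring
    refine (sum_le_sum h1).trans (le_of_eq ?_)
    rw [sum_const, nsmul_eq_mul]
  have hNe : 0 ≤ (N : ℝ) ^ ε := by positivity
  have hG0 : (0 : ℝ) ≤ G.card := Nat.cast_nonneg _
  calc (((TS g b (a * c) κ X).filter (fun e => Gd (a * κ) Q e)).card : ℝ)
      ≤ 4 * Q.card * (G.card * (C0 * (C3 ^ (ε / 2) * (N : ℝ) ^ ε))) :=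
        hcard1.trans (mul_le_mul_of_nonneg_left hcard2 (by positivity))
    _ = C4 * (N : ℝ) ^ ε * G.card := by rw [hC4]; ring
    _ ≤ (C2 + C4) * (N : ℝ) ^ ε * G.card := by
        gcongr
        linarith

end Pool.Agent.H870.Q648
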